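import Mathlib

/-!
Tutte's theorem for graphs on 14 vertices of minimum degree at least 5 and independence number at
most 7: a perfect matching, or a union of components with 7 vertices, or 6 independent vertices all
of whose neighbours lie in a set of 5 vertices.
-/

namespace Pool.Agent.X258.MOG

open SimpleGraph Finset

variable {W : Type*} [Fintype W] [DecidableEq W]

/-- The data of a Tutte violator, in terms of finite sets. -/
theorem violator_data (B : SimpleGraph W) (u : Set W) (h : B.IsTutteViolator u) :
    ∃ (U : Finset W) (O : Finset (Finset W)),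
      (∀ K ∈ O, Odd K.card ∧ Disjoint K U ∧ ∀ x ∈ K, ∀ y, B.Adj x y → y ∈ K ∨ y ∈ U) ∧
      (∀ K ∈ O, ∀ K' ∈ O, K ≠ K' → Disjoint K K') ∧
      U.card < O.card ∧ (Odd O.card ↔ Odd (Fintype.card W - U.card)) ∧
      U.card ≤ Fintype.card W := by
  classical
  set H := ((⊤ : B.Subgraph).deleteVerts u).coe with hH
  have hmem : ∀ x : W, x ∈ ((⊤ : B.Subgraph).deleteVerts u).verts ↔ x ∉ u := by
    intro x; simp
  let U : Finset W := Finset.univ.filter (· ∈ u)
  have hU : u.ncard = U.card := by
    rw [← Set.ncard_coe_finset]; congr 1; ext x; simp [U]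
  let F : H.ConnectedComponent → Finset W := fun K =>
    Finset.univ.filter (fun x => ∃ hx : x ∈ ((⊤ : B.Subgraph).deleteVerts u).verts,
      H.connectedComponentMk ⟨x, hx⟩ = K)
  have hFcard : ∀ K, (F K).card = K.supp.ncard := by
    intro K
    have : ((F K : Finset W) : Set W) = Subtype.val '' K.supp := by
      ext x
      simp only [F, Finset.coe_filter, Finset.mem_univ, true_and, Set.mem_ofPred_eq, Set.mem_image,
        ConnectedComponent.mem_supp_iff]
      constructor
      · rintro ⟨hx, h1⟩; exact ⟨⟨x, hx⟩, h1, rfl⟩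
      · rintro ⟨⟨y, hy⟩, h1, rfl⟩; exact ⟨hy, h1⟩
    rw [← Set.ncard_coe_finset, this, Set.ncard_image_of_injective _ Subtype.val_injective]
  have hFinj : ∀ K K' : H.ConnectedComponent, ∀ x, x ∈ F K → x ∈ F K' → K = K' := by
    intro K K' x h1 h2
    simp only [F, Finset.mem_filter, Finset.mem_univ, true_and] at h1 h2
    obtain ⟨a, ha⟩ := h1
    obtain ⟨b, hb⟩ := h2
    exact ha.symm.trans hb
  have : Finite H.ConnectedComponent := inferInstance
  have hOfin : (H.oddComponents).Finite := Set.toFinite _
  let O : Finset (Finset W) := (hOfin.toFinset).image F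
  have hne : ∀ K ∈ hOfin.toFinset, (F K).Nonempty := by
    intro K hK
    rw [← Finset.card_pos, hFcard]
    have : Odd K.supp.ncard := by simpa using hK
    exact this.pos
  have hOcard : O.card = H.oddComponents.ncard := by
    rw [Finset.card_image_of_injOn, Set.ncard_eq_toFinset_card _ hOfin]
    intro K hK K' hK' hKK
    obtain ⟨x, hx⟩ := hne K (by simpa using hK)
    exact hFinj K K' x hx (by simpa only [← hKK] using hx)
  refine ⟨U, O, ?_, ?_, ?_, ?_, Finset.card_le_univ _⟩
  · intro K hK
    obtain ⟨c, hc, rfl⟩ := Finset.mem_image.mp hK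
    refine ⟨?_, ?_, ?_⟩
    · rw [hFcard]; simpa using hc
    · rw [Finset.disjoint_left]
      intro x hx hxU
      simp only [F, U, Finset.mem_filter, Finset.mem_univ, true_and] at hx hxU
      obtain ⟨hx1, -⟩ := hx
      exact (hmem x).mp hx1 hxU
    · intro x hx y hxy
      by_cases hy : y ∈ u
      · right; simp [U, hy]
      · left
        simp only [F, Finset.mem_filter, Finset.mem_univ, true_and] at hx ⊢
        obtain ⟨hx1, hx2⟩ := hx
        refine ⟨(hmem y).mpr hy, ?_⟩
        rw [← hx2]
        apply ConnectedComponent.sound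
        apply Adj.reachable
        have hx3 := (hmem x).mp hx1
        simp [hH, hxy.symm, hy, hx3]
  · intro K hK K' hK' hne
    obtain ⟨c, hc, rfl⟩ := Finset.mem_image.mp hK
    obtain ⟨c', hc', rfl⟩ := Finset.mem_image.mp hK'
    rw [Finset.disjoint_left]
    intro x hx hx'
    exact hne (by rw [hFinj c c' x hx hx'])
  · rw [hOcard, ← hU]; exact h
  · rw [hOcard]
    have h1 := H.odd_ncard_oddComponents
    rw [h1]
    have h2 : Nat.card ↥((⊤ : B.Subgraph).deleteVerts u).verts = Fintype.card W - U.card := by
      rw [Nat.card_coe_set_eq]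
      have : ((⊤ : B.Subgraph).deleteVerts u).verts = ((Finset.univ \ U : Finset W) : Set W) := by
        ext x; simp [U]
      rw [this, Set.ncard_coe_finset, Finset.card_sdiff_of_subset (Finset.subset_univ _),
        Finset.card_univ]
    rw [h2]

theorem tutte14 (B : SimpleGraph W) [DecidableRel B.Adj] (hW : Fintype.card W = 14)
    (hdeg : ∀ x, 5 ≤ B.degree x)
    (hind : ∀ S : Finset W, (∀ x ∈ S, ∀ y ∈ S, ¬ B.Adj x y) → S.card ≤ 7) :
    (∃ M : B.Subgraph, M.IsPerfectMatching) ∨
    (∃ S : Finset W, S.card = 7 ∧ ∀ x ∈ S, ∀ y, B.Adj x y → y ∈ S) ∨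
    (∃ U D : Finset W, Disjoint U D ∧ U.card = 5 ∧ D.card = 6 ∧
      ∀ x ∈ D, ∀ y, B.Adj x y → y ∈ U) := by
  classical
  by_contra hcon
  push Not at hcon
  obtain ⟨hM, hJ, hK⟩ := hcon
  have hT : ¬ ∀ u, ¬ B.IsTutteViolator u := by
    rw [← SimpleGraph.tutte]
    push Not
    exact hM
  push Not at hT
  obtain ⟨u, hu⟩ := hT
  obtain ⟨U, O, h1, h2, h3, h4, h5⟩ := violator_data B u hu
  rw [hW] at h4 h5
  have : Nonempty W := Fintype.card_pos_iff.mp (by omega)
  have hne : ∀ K ∈ O, K.Nonempty := fun K hK => Finset.card_pos.mp (h1 K hK).1.pos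
  rw [Nat.odd_iff, Nat.odd_iff] at h4
  -- representatives
  have hO7 : O.card ≤ 7 := by
    choose! r hr using hne
    have hinj : Set.InjOn r O := by
      intro K hK K' hK' hKK
      by_contra hn
      exact Finset.disjoint_left.mp (h2 K hK K' hK' hn) (hr K hK) (by rw [hKK]; exact hr K' hK')
    rw [← Finset.card_image_of_injOn hinj]
    apply hind
    intro x hx y hy hxy
    obtain ⟨K, hK, rfl⟩ := Finset.mem_image.mp hx
    obtain ⟨K', hK', rfl⟩ := Finset.mem_image.mp hy
    have hn : K ≠ K' := by
      rintro rfl; exact B.loopless.irrefl _ hxy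
    rcases (h1 K hK).2.2 _ (hr K hK) _ hxy with h6 | h6
    · exact Finset.disjoint_left.mp (h2 K hK K' hK' hn) h6 (hr K' hK')
    · exact Finset.disjoint_left.mp (h1 K' hK').2.1 (hr K' hK') h6
  -- sizes
  have hsz : ∀ K ∈ O, 6 ≤ K.card + U.card := by
    intro K hK
    obtain ⟨x, hx⟩ := hne K hK
    have hsub : B.neighborFinset x ⊆ (K.erase x) ∪ U := by
      intro y hy
      rw [SimpleGraph.mem_neighborFinset] at hy
      rcases (h1 K hK).2.2 x hx y hy with h6 | h6
      · exact Finset.mem_union_left _ (Finset.mem_erase.mpr ⟨hy.ne', h6⟩)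
      · exact Finset.mem_union_right _ h6
    have := Finset.card_le_card hsub
    rw [SimpleGraph.card_neighborFinset_eq_degree] at this
    have h7 := Finset.card_union_le (K.erase x) U
    have h8 := Finset.card_erase_of_mem hx
    have h9 := Finset.card_pos.mpr ⟨x, hx⟩
    have := hdeg x
    omega
  have hsum : ∑ K ∈ O, K.card + U.card ≤ 14 := by
    have hd : (O : Set (Finset W)).PairwiseDisjoint id := by
      intro K hK K' hK' hn
      exact h2 K hK K' hK' hn
    have e1 : (O.biUnion id).card = ∑ K ∈ O, K.card := by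
      rw [Finset.card_biUnion hd]; rfl
    have e2 : Disjoint (O.biUnion id) U := by
      rw [Finset.disjoint_biUnion_left]
      intro K hK
      exact (h1 K hK).2.1
    rw [← e1, ← Finset.card_union_of_disjoint e2, ← hW]
    exact Finset.card_le_univ _
  have hlow : ∀ m, (∀ K ∈ O, m ≤ K.card) → O.card * m ≤ ∑ K ∈ O, K.card := by
    intro m hm
    have := Finset.card_nsmul_le_sum O (fun K => K.card) m hm
    simpa using this
  have hUle : U.card ≤ 6 := by omega
  have hcases : U.card = 0 ∨ U.card = 1 ∨ U.card = 2 ∨ U.card = 3 ∨ U.card = 4 ∨ U.card = 5 ∨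
    U.card = 6 := by omega
  have hl := hlow (6 - U.card) (fun K hK => by have := hsz K hK; omega)
  rcases hcases with h | h | h | h | h | h | h <;> rw [h] at h4 hl hsum h3
  · -- two components of size 7
    have h10 : 2 ≤ O.card := by
      omega
    have hge : ∀ K ∈ O, 7 ≤ K.card := by
      intro K hK
      have := hsz K hK
      rcases (h1 K hK).1 with ⟨t, ht⟩
      omega
    have hl7 := hlow 7 hge
    have h12 : O.card = 2 := by omega
    obtain ⟨K, K', hKK, hOK⟩ := Finset.card_eq_two.mp h12
    have hKO : K ∈ O := by rw [hOK]; simp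
    have hKO' : K' ∈ O := by rw [hOK]; simp
    have hsum' : K.card + K'.card ≤ 14 := by
      have : ∑ K ∈ O, K.card = K.card + K'.card := by rw [hOK, Finset.sum_pair hKK]
      omega
    have h13 := hge K hKO
    have h14 := hge K' hKO'
    obtain ⟨x, hx, y, hxy, hy⟩ := hJ K (by omega)
    rcases (h1 K hKO).2.2 x hx y hxy with h15 | h15
    · exact hy h15
    · rw [Finset.card_eq_zero] at h
      rw [h] at h15; simp at h15
  · have : 3 ≤ O.card := by
      omega
    omega
  · have : 4 ≤ O.card := by
      omega
    omega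
  · have : 5 ≤ O.card := by
      omega
    omega
  · have : 6 ≤ O.card := by
      omega
    omega
  · have hO : O.card = 7 := by
      omega
    -- at least six singletons
    let P := O.filter (fun K => K.card = 1)
    let Q := O.filter (fun K => ¬ K.card = 1)
    have hPQ : P.card + Q.card = 7 := by
      rw [← hO]; exact Finset.card_filter_add_card_filter_not _
    have hs2 : ∑ K ∈ P, K.card + ∑ K ∈ Q, K.card = ∑ K ∈ O, K.card :=
      Finset.sum_filter_add_sum_filter_not _ _ _
    have hP1 : ∑ K ∈ P, K.card = P.card := by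
      rw [Finset.sum_congr rfl (fun K hK => (Finset.mem_filter.mp hK).2)]; simp [P]
    have hQ3 : Q.card * 3 ≤ ∑ K ∈ Q, K.card := by
      have := Finset.card_nsmul_le_sum Q (fun K => K.card) 3 (by
        intro K hK
        have h20 := (Finset.mem_filter.mp hK)
        rcases (h1 K h20.1).1 with ⟨t, ht⟩
        have := h20.2
        omega)
      simpa using this
    have hP6 : 6 ≤ P.card := by omega
    obtain ⟨P', hP', hP'6⟩ := Finset.exists_subset_card_eq hP6
    let D := P'.biUnion id
    have hPO : ∀ K ∈ P', K ∈ O ∧ K.card = 1 := fun K hK => Finset.mem_filter.mp (hP' hK)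
    have hDc : D.card = 6 := by
      have hd : (P' : Set (Finset W)).PairwiseDisjoint id := by
        intro K hK K' hK' hn
        exact h2 K (hPO K hK).1 K' (hPO K' hK').1 hn
      change (P'.biUnion id).card = 6
      rw [Finset.card_biUnion hd]
      have : ∑ u ∈ P', (id u : Finset W).card = ∑ u ∈ P', 1 :=
        Finset.sum_congr rfl (fun K hK => (hPO K hK).2)
      rw [this]; simp [hP'6]
    have hdisj : Disjoint U D := by
      rw [disjoint_comm, Finset.disjoint_biUnion_left]
      intro K hK
      exact (h1 K (hPO K hK).1).2.1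
    obtain ⟨x, hx, y, hxy, hy⟩ := hK U D hdisj h hDc
    obtain ⟨K, hK', hxK⟩ := Finset.mem_biUnion.mp hx
    rcases (h1 K (hPO K hK').1).2.2 x hxK y hxy with h21 | h21
    · have := (hPO K hK').2
      rw [Finset.card_eq_one] at this
      obtain ⟨z, hz⟩ := this
      have hxz : x = z := by simpa [hz] using hxK
      have hyz : y = z := by simpa [hz] using h21
      exact hxy.ne (hxz.trans hyz.symm)
    · exact hy h21
  · omega

end Pool.Agent.X258.MOG
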