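import Pool.Agent.X258.MOG.Local
import Pool.Agent.X258.MOG.Tutte

/-!
Existence of a good 7-colouring of a graph on 14 vertices.
-/

namespace Pool.Agent.X258.MOG

open SimpleGraph Finset

set_option linter.unusedSectionVars false

variable {W : Type*} [Fintype W] [DecidableEq W]

/-- a perfect matching of the complement gives a proper 7-colouring with classes of size 2 -/
theorem colouring_of_matching {r : SimpleGraph W} (hW : Fintype.card W = 14)
    (nb : W → Finset (Fin 7)) (M : (rᶜ).Subgraph) (hM : M.IsPerfectMatching) :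
    ∃ φ : W → Fin 7, Proper r φ ∧ Light nb φ := by
  classical
  rw [Subgraph.isPerfectMatching_iff] at hM
  choose μ hμ hμu using hM
  have hinv : ∀ w, μ (μ w) = w := fun w => (hμu (μ w) w (hμ w).symm).symm
  have hne : ∀ w, μ w ≠ w := fun w h => by
    have := hμ w
    rw [h] at this
    exact M.loopless.irrefl _ this
  let E : Finset (Sym2 W) := univ.image (fun w => s(w, μ w))
  have hE : E.card ≤ 7 := by
    have h1 : 2 * E.card ≤ (univ : Finset W).card := by
      apply Finset.mul_card_image_le_card
      intro e he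
      obtain ⟨w, -, rfl⟩ := mem_image.mp he
      have hsub : ({w, μ w} : Finset W) ⊆
          univ.filter (fun x => s(x, μ x) = s(w, μ w)) := by
        intro x hx
        simp only [mem_insert, mem_singleton] at hx
        rcases hx with rfl | rfl
        · simp
        · simp [hinv]
      have := card_le_card hsub
      rw [card_pair (hne w).symm] at this
      exact this
    rw [card_univ, hW] at h1
    omega
  have hmem : ∀ w, s(w, μ w) ∈ E := fun w => mem_image_of_mem _ (mem_univ w)
  let φ : W → Fin 7 := fun w => Fin.castLE hE (E.equivFin ⟨s(w, μ w), hmem w⟩)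
  have hφ : ∀ w w', φ w = φ w' → w' = w ∨ w' = μ w := by
    intro w w' h
    have h1 : E.equivFin ⟨s(w, μ w), hmem w⟩ = E.equivFin ⟨s(w', μ w'), hmem w'⟩ :=
      Fin.castLE_injective hE h
    have h2 := congrArg Subtype.val (E.equivFin.injective h1)
    simp only [Sym2.eq_iff] at h2
    rcases h2 with h2 | h2
    · left; exact h2.1.symm
    · right; exact h2.2.symm
  refine ⟨φ, ?_, ?_⟩
  · intro w w' hww he
    rcases hφ w w' he with h | h
    · exact hww.ne h.symm
    · have := (hμ w).adj_sub
      rw [← h, compl_adj] at this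
      exact this.2 hww
  · intro c
    by_cases hc : ∃ w, φ w = c
    · obtain ⟨w, hw⟩ := hc
      have hsub : univ.filter (fun x => φ x = c ∧ (nb x).card ≤ 3) ⊆ {w, μ w} := by
        intro x hx
        simp only [mem_filter, mem_univ, true_and] at hx
        simp only [mem_insert, mem_singleton]
        exact hφ w x (by rw [hw, hx.1])
      exact (card_le_card hsub).trans card_le_two
    · push Not at hc
      have : univ.filter (fun x => φ x = c ∧ (nb x).card ≤ 3) = ∅ := by
        rw [filter_eq_empty_iff]
        intro x _ hx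
        exact hc x hx.1
      rw [this]; simp

theorem good_of_few {r : SimpleGraph W} {nb : W → Finset (Fin 7)} {φ : W → Fin 7}
    (hp : Proper r φ) (h1 : ∀ w, (nb w).card ≤ 1)
    (h6 : ∀ c, (univ.filter (fun w => φ w = c)).card ≤ 6)
    (h5 : ∀ c c', c ≠ c' → (univ.filter (fun w => φ w = c)).card ≤ 5 ∨
      (univ.filter (fun w => φ w = c')).card ≤ 5) : Good r nb φ := by
  have key : ∀ c, (dom nb φ c).card ≤ (univ.filter (fun w => φ w = c)).card := by
    intro c
    have := dom_card_le (nb := nb) (φ := φ) (c := c) (univ.filter (fun w => φ w = c))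
      (fun w hw => by simpa using hw) le_rfl (m := 1) (fun w _ => h1 w)
    simpa using this
  refine ⟨hp, ?_, ?_⟩
  · intro c hc
    have := key c
    rw [hc] at this
    simp at this
    have := h6 c
    omega
  · intro c c' hcc
    have k1 := key c
    have k2 := key c'
    have k3 := card_le_card (inter_subset_left (s₁ := dom nb φ c) (s₂ := dom nb φ c'))
    have k4 := card_le_card (inter_subset_right (s₁ := dom nb φ c) (s₂ := dom nb φ c'))
    rcases h5 c c' hcc with h | h <;> omega

/-- the join case -/
theorem good_of_join {r : SimpleGraph W} [DecidableRel r.Adj] {nb : W → Finset (Fin 7)}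
    (H : Hyp r nb) (hW : Fintype.card W = 14) (S : Finset W) (hS : S.card = 7)
    (hj : ∀ x ∈ S, ∀ y, y ∉ S → r.Adj x y) : ∃ φ, Good r nb φ := by
  classical
  have hSc : (univ \ S).card = 7 := by
    rw [card_sdiff_of_subset (subset_univ _), card_univ, hW, hS]
  -- an injective numbering of both sides
  obtain ⟨num, hnS, hnT⟩ : ∃ num : W → Fin 7, (∀ x ∈ S, ∀ y ∈ S, num x = num y → x = y) ∧
      (∀ x, x ∉ S → ∀ y, y ∉ S → num x = num y → x = y) := by
    let e1 : S ≃ Fin 7 := S.equivFinOfCardEq hS
    let e2 : (univ \ S : Finset W) ≃ Fin 7 := (univ \ S).equivFinOfCardEq hSc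
    refine ⟨fun x => if h : x ∈ S then e1 ⟨x, h⟩ else e2 ⟨x, by simpa using h⟩, ?_, ?_⟩
    · intro x hx y hy h
      simp only [hx, hy, dif_pos] at h
      exact congrArg Subtype.val (e1.injective h)
    · intro x hx y hy h
      simp only [hx, hy, dif_neg, not_false_eq_true] at h
      exact congrArg Subtype.val (e2.injective h)
  -- each vertex has seven neighbours on the other side
  have hside : ∀ x, ∃ T : Finset W, T.card = 7 ∧ T ⊆ r.neighborFinset x ∧
      ∀ y, (y ∈ S ↔ x ∈ S) → y ∉ T := by
    intro x
    by_cases hx : x ∈ S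
    · refine ⟨univ \ S, hSc, ?_, ?_⟩
      · intro y hy
        have : y ∉ S := by simpa using hy
        simpa using hj x hx y this
      · intro y hy
        simp [hy.mpr hx]
    · refine ⟨S, hS, ?_, ?_⟩
      · intro y hy
        simpa using (hj y hy x hx).symm
      · intro y hy h
        exact hx (hy.mp h)
  have hnb1 : ∀ w, (nb w).card ≤ 1 := by
    intro w
    obtain ⟨T, hT, hTs, -⟩ := hside w
    have := card_le_card hTs
    rw [SimpleGraph.card_neighborFinset_eq_degree] at this
    have := H.deg w
    omega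
  have hone : ∀ x y z, r.Adj x y → r.Adj x z → (y ∈ S ↔ x ∈ S) → (z ∈ S ↔ x ∈ S) → y = z := by
    intro x y z hy hz hyS hzS
    by_contra hne
    obtain ⟨T, hT, hTs, hTn⟩ := hside x
    have hsub : insert y (insert z T) ⊆ r.neighborFinset x := by
      intro a ha
      simp only [mem_insert] at ha
      rcases ha with rfl | rfl | ha
      · simpa using hy
      · simpa using hz
      · exact hTs ha
    have h1 := card_le_card hsub
    rw [card_insert_of_notMem (by simp [hne, hTn y hyS]), card_insert_of_notMem (hTn z hzS), hT,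
      SimpleGraph.card_neighborFinset_eq_degree] at h1
    have := H.deg x
    omega
  let sm : W → Prop := fun w => ∃ w', r.Adj w w' ∧ (w' ∈ S ↔ w ∈ S) ∧ num w' < num w
  let φ : W → Fin 7 := fun w =>
    if w ∈ S then (if sm w then (if num w < 4 then 0 else 1) else (if num w < 4 then 2 else 3))
    else (if sm w then 4 else if num w < 4 then 5 else 6)
  have hφ : ∀ w w', φ w = φ w' → (w' ∈ S ↔ w ∈ S) ∧ (sm w ↔ sm w') := by
    intro w w' h
    by_cases h1 : w ∈ S <;> by_cases h2 : w' ∈ S <;> by_cases h3 : sm w <;>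
      by_cases h4 : sm w' <;> by_cases h5 : num w < 4 <;> by_cases h6 : num w' < 4 <;>
      simp [φ, h1, h2, h3, h4, h5, h6] at h ⊢ <;> exact absurd h (by decide)
  have hprop' : ∀ w w', r.Adj w w' → num w' < num w → φ w ≠ φ w' := by
    intro w w' hww hlt he
    obtain ⟨hs, hsm⟩ := hφ w w' he
    have h1 : sm w := ⟨w', hww, hs, hlt⟩
    obtain ⟨w'', hw1, hw2, hw3⟩ := hsm.mp h1
    have := hone w' w w'' hww.symm hw1 hs.symm hw2
    rw [← this] at hw3
    exact absurd hw3 (not_lt.mpr hlt.le)
  have hprop : Proper r φ := by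
    intro w w' hww he
    rcases lt_trichotomy (num w) (num w') with h | h | h
    · exact hprop' w' w hww.symm h he.symm
    · have hs := (hφ w w' he).1
      by_cases hw : w ∈ S
      · exact hww.ne (hnS w hw w' (hs.mpr hw) h)
      · exact hww.ne (hnT w hw w' (fun h' => hw (hs.mp h')) h)
    · exact hprop' w w' hww h he
  -- class sizes
  have hcls : ∀ (A : Finset (Fin 7)) (C : Finset W), (∀ w ∈ C, num w ∈ A) →
      ((∀ w ∈ C, w ∈ S) ∨ (∀ w ∈ C, w ∉ S)) → C.card ≤ A.card := by
    intro A C hA hC
    apply card_le_card_of_injOn num hA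
    intro x hx y hy hxy
    rcases hC with hC | hC
    · exact hnS x (hC x hx) y (hC y hy) hxy
    · exact hnT x (hC x hx) y (hC y hy) hxy
  have hsize : ∀ c, c ≠ 4 → (univ.filter (fun w => φ w = c)).card ≤ 4 := by
    intro c hc
    by_cases hlo : c = 0 ∨ c = 2 ∨ c = 5
    · refine (hcls (univ.filter (fun n => n < 4)) _ ?_ ?_).trans (by decide)
      · intro w hw
        simp only [mem_filter, mem_univ, true_and] at hw ⊢
        by_contra h
        by_cases h1 : w ∈ S <;> by_cases h3 : sm w <;> simp [φ, h1, h3, h] at hw <;>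
          subst hw <;> revert hlo hc <;> decide
      · by_cases h0 : c = 5
        · right
          intro w hw hwS
          simp only [mem_filter, mem_univ, true_and] at hw
          by_cases h3 : sm w <;> by_cases h5 : num w < 4 <;> simp [φ, hwS, h3, h5] at hw <;>
            subst hw <;> revert h0 <;> decide
        · left
          intro w hw
          simp only [mem_filter, mem_univ, true_and] at hw
          by_contra hwS
          by_cases h3 : sm w <;> by_cases h5 : num w < 4 <;> simp [φ, hwS, h3, h5] at hw <;>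
            subst hw <;> revert h0 hlo hc <;> decide
    · refine (hcls (univ.filter (fun n => ¬ n < 4)) _ ?_ ?_).trans (by decide)
      · intro w hw
        simp only [mem_filter, mem_univ, true_and] at hw ⊢
        intro h
        by_cases h1 : w ∈ S <;> by_cases h3 : sm w <;> simp [φ, h1, h3, h] at hw <;>
          subst hw <;> revert hlo hc <;> decide
      · by_cases h0 : c = 6
        · right
          intro w hw hwS
          simp only [mem_filter, mem_univ, true_and] at hw
          by_cases h3 : sm w <;> by_cases h5 : num w < 4 <;> simp [φ, hwS, h3, h5] at hw <;>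
            subst hw <;> revert h0 <;> decide
        · left
          intro w hw
          simp only [mem_filter, mem_univ, true_and] at hw
          by_contra hwS
          by_cases h3 : sm w <;> by_cases h5 : num w < 4 <;> simp [φ, hwS, h3, h5] at hw <;>
            subst hw <;> revert h0 hlo hc <;> decide
  have hsize4 : (univ.filter (fun w => φ w = 4)).card ≤ 6 := by
    refine (hcls (univ.filter (fun n => n ≠ 0)) _ ?_ ?_).trans (by decide)
    · intro w hw
      simp only [mem_filter, mem_univ, true_and] at hw ⊢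
      intro h
      have hsm : ¬ sm w := by
        rintro ⟨w', -, -, h3⟩
        rw [h] at h3
        exact absurd h3 (by simp)
      by_cases h1 : w ∈ S <;> by_cases h5 : num w < 4 <;> simp [φ, h1, hsm, h5] at hw <;>
        exact absurd hw (by decide)
    · right
      intro w hw hwS
      simp only [mem_filter, mem_univ, true_and] at hw
      by_cases h3 : sm w <;> by_cases h5 : num w < 4 <;> simp [φ, hwS, h3, h5] at hw <;>
        exact absurd hw (by decide)
  refine ⟨φ, good_of_few hprop hnb1 ?_ ?_⟩
  · intro c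
    by_cases h : c = 4
    · rw [h]; exact hsize4
    · exact (hsize c h).trans (by norm_num)
  · intro c c' hcc
    by_cases h : c = 4
    · right
      exact (hsize c' (fun h' => hcc (h.trans h'.symm))).trans (by norm_num)
    · left
      exact (hsize c h).trans (by norm_num)


/-- the case of six vertices of full degree -/
theorem good_of_six {r : SimpleGraph W} [DecidableRel r.Adj] {nb : W → Finset (Fin 7)}
    (H : Hyp r nb) (hW : Fintype.card W = 14) (hk8 : r.CliqueFree 8) (U D : Finset W)
    (hUD : Disjoint U D) (hU : U.card = 5) (hD : D.card = 6)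
    (hadj : ∀ x ∈ D, ∀ y, y ≠ x → y ∉ U → r.Adj x y) : ∃ φ, Good r nb φ := by
  classical
  have hDU : ∀ x ∈ D, x ∉ U := fun x hx h => Finset.disjoint_left.mp hUD h hx
  have hdeg8 : ∀ x ∈ D, ∀ A : Finset W, (∀ y ∈ A, y ∈ U ∧ r.Adj x y) →
      8 + A.card ≤ r.degree x := by
    intro x hx A hA
    have hsub : ((univ \ U).erase x) ∪ A ⊆ r.neighborFinset x := by
      intro y hy
      rw [SimpleGraph.mem_neighborFinset]
      rcases mem_union.mp hy with h | h
      · rw [mem_erase, mem_sdiff] at h
        exact hadj x hx y h.1 h.2.2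
      · exact (hA y h).2
    have hdis : Disjoint ((univ \ U).erase x) A := by
      rw [Finset.disjoint_left]
      intro y hy hyA
      rw [mem_erase, mem_sdiff] at hy
      exact hy.2.2 (hA y hyA).1
    have h1 := card_le_card hsub
    rw [card_union_of_disjoint hdis, card_erase_of_mem (by simp [hDU x hx]),
      card_sdiff_of_subset (subset_univ _), card_univ, hW, hU,
      SimpleGraph.card_neighborFinset_eq_degree] at h1
    omega
  have hDnb : ∀ x ∈ D, nb x = ∅ := by
    intro x hx
    have h1 := hdeg8 x hx ∅ (by simp)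
    have h2 := H.deg x
    rw [← card_eq_zero]
    simp at h1
    omega
  have hDUn : ∀ x ∈ D, ∀ y ∈ U, ¬ r.Adj x y := by
    intro x hx y hy h
    have h1 := hdeg8 x hx {y} (by simpa using ⟨hy, h⟩)
    have h2 := H.deg x
    simp at h1
    omega
  have hTT : ∀ t t', t ∉ U → t ∉ D → t' ∉ U → t' ∉ D → ¬ r.Adj t t' := by
    intro t t' ht htD ht' htD' h
    apply hk8 (insert t (insert t' D))
    rw [isNClique_iff]
    refine ⟨?_, ?_⟩
    · rw [isClique_iff]
      intro a ha b hb hab
      simp only [coe_insert, Set.mem_insert_iff, mem_coe] at ha hb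
      rcases ha with rfl | rfl | ha <;> rcases hb with rfl | rfl | hb
      · exact absurd rfl hab
      · exact h
      · exact (hadj b hb a hab ht).symm
      · exact h.symm
      · exact absurd rfl hab
      · exact (hadj b hb a hab ht').symm
      · exact hadj a ha b hab.symm ht
      · exact hadj a ha b hab.symm ht'
      · exact hadj a ha b hab.symm (hDU b hb)
    · rw [card_insert_of_notMem (by simp [h.ne, htD]), card_insert_of_notMem htD', hD]
  have hTsub : ∀ t, t ∉ U → t ∉ D → D ⊆ r.neighborFinset t := by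
    intro t ht htD x hx
    rw [SimpleGraph.mem_neighborFinset]
    exact (hadj x hx t (fun h => htD (h ▸ hx)) ht).symm
  have hTnb : ∀ t, t ∉ U → t ∉ D → (nb t).card ≤ 2 := by
    intro t ht htD
    have h1 := card_le_card (hTsub t ht htD)
    rw [hD, SimpleGraph.card_neighborFinset_eq_degree] at h1
    have h2 := H.deg t
    omega
  have hTeq : ∀ t, t ∉ U → t ∉ D → 2 ≤ (nb t).card → ∀ y ∈ U, ¬ r.Adj t y := by
    intro t ht htD h y hy hty
    have h1 := hTsub t ht htD
    have h2 := H.deg t
    have h3 : D = r.neighborFinset t := by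
      apply eq_of_subset_of_card_le h1
      rw [hD, SimpleGraph.card_neighborFinset_eq_degree]
      omega
    have h4 : y ∈ D := by rw [h3, SimpleGraph.mem_neighborFinset]; exact hty
    exact hDU y h4 hy
  have hTc : (univ \ (U ∪ D)).card = 3 := by
    rw [card_sdiff_of_subset (subset_univ _), card_univ, hW, card_union_of_disjoint hUD, hU, hD]
  -- the colouring
  obtain ⟨φ, hφD, hφU, hφ6, hφT⟩ : ∃ φ : W → Fin 7,
      (∀ x ∈ D, ∀ y ∈ D, φ x = φ y → x = y) ∧ (∀ x ∈ U, ∀ y ∈ U, φ x = φ y → x = y) ∧
      (∀ x, x ∈ U ∨ x ∈ D → φ x ≠ 6) ∧ (∀ x, x ∉ U → x ∉ D → φ x = 6) := by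
    let e1 : D ≃ Fin 6 := D.equivFinOfCardEq hD
    let e2 : U ≃ Fin 5 := U.equivFinOfCardEq hU
    refine ⟨fun x => if h : x ∈ D then Fin.castLE (by norm_num) (e1 ⟨x, h⟩) else
      if h' : x ∈ U then Fin.castLE (by norm_num) (e2 ⟨x, h'⟩) else 6, ?_, ?_, ?_, ?_⟩
    · intro x hx y hy h
      simp only [hx, hy, dif_pos] at h
      exact congrArg Subtype.val (e1.injective (Fin.castLE_injective _ h))
    · intro x hx y hy h
      have hx' : x ∉ D := fun h' => hDU x h' hx
      have hy' : y ∉ D := fun h' => hDU y h' hy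
      simp only [hx, hy, hx', hy', dif_neg, dif_pos, not_false_eq_true] at h
      exact congrArg Subtype.val (e2.injective (Fin.castLE_injective _ h))
    · intro x hx h
      by_cases hxD : x ∈ D
      · simp only [hxD, dif_pos] at h
        have := congrArg Fin.val h
        rw [Fin.val_castLE] at this
        have h2 := (e1 ⟨x, hxD⟩).isLt
        have h3 : ((6 : Fin 7) : ℕ) = 6 := rfl
        omega
      · have hxU : x ∈ U := hx.resolve_right hxD
        simp only [hxD, hxU, dif_neg, dif_pos, not_false_eq_true] at h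
        have := congrArg Fin.val h
        rw [Fin.val_castLE] at this
        have h2 := (e2 ⟨x, hxU⟩).isLt
        have h3 : ((6 : Fin 7) : ℕ) = 6 := rfl
        omega
    · intro x hx hxD
      simp only [hx, hxD, dif_neg, not_false_eq_true]
  have hprop : Proper r φ := by
    intro w w' hww he
    by_cases h1 : w ∈ D
    · by_cases h2 : w' ∈ D
      · exact hww.ne (hφD w h1 w' h2 he)
      · by_cases h3 : w' ∈ U
        · exact hDUn w h1 w' h3 hww
        · exact hφ6 w (Or.inr h1) (he.trans (hφT w' h3 h2))
    · by_cases h1' : w ∈ U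
      · by_cases h2 : w' ∈ D
        · exact hDUn w' h2 w h1' hww.symm
        · by_cases h3 : w' ∈ U
          · exact hww.ne (hφU w h1' w' h3 he)
          · exact hφ6 w (Or.inl h1') (he.trans (hφT w' h3 h2))
      · by_cases h2 : w' ∈ D
        · exact hφ6 w' (Or.inr h2) (he.symm.trans (hφT w h1' h1))
        · by_cases h3 : w' ∈ U
          · exact hφ6 w' (Or.inl h3) (he.symm.trans (hφT w h1' h1))
          · exact hTT w w' h1' h1 h3 h2 hww
  have hclsU : ∀ w v, v ∈ nb w → φ w ≠ 6 → w ∈ U := by
    intro w v hv h6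
    by_contra hwU
    have hwD : w ∉ D := by
      intro h
      rw [hDnb w h] at hv
      simp at hv
    exact h6 (hφT w hwU hwD)
  have hcls6 : ∀ w v, v ∈ nb w → φ w = 6 → w ∉ U ∧ w ∉ D := by
    intro w v hv h6
    exact ⟨fun h => hφ6 w (Or.inl h) h6, fun h => hφ6 w (Or.inr h) h6⟩
  have hdom6 : dom nb φ 6 ⊆ (univ \ (U ∪ D)).biUnion nb := by
    intro v hv
    obtain ⟨w, hw, hw6⟩ := mem_dom.mp hv
    obtain ⟨a, b⟩ := hcls6 w v hw hw6
    exact mem_biUnion.mpr ⟨w, by simp [a, b], hw⟩
  have hTmem : ∀ t, t ∈ univ \ (U ∪ D) → t ∉ U ∧ t ∉ D := by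
    intro t ht
    simpa using ht
  have ha : ∀ c, dom nb φ c ≠ univ := by
    intro c hc
    by_cases h6 : c = 6
    · subst h6
      have h1 := card_le_card hdom6
      rw [hc] at h1
      have h2 := card_biUnion_le_card_mul (univ \ (U ∪ D)) nb 2
        (fun t ht => hTnb t (hTmem t ht).1 (hTmem t ht).2)
      rw [hTc] at h2
      simp at h1
      omega
    · have h0 : (0 : Fin 7) ∈ dom nb φ c := by rw [hc]; exact mem_univ _
      obtain ⟨w, hw, hwc⟩ := mem_dom.mp h0
      have hwU := hclsU w 0 hw (by rw [hwc]; exact h6)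
      have : nb w = univ := by
        rw [eq_univ_iff_forall]
        intro v
        have hv : v ∈ dom nb φ c := by rw [hc]; exact mem_univ _
        obtain ⟨w', hw', hwc'⟩ := mem_dom.mp hv
        have hwU' := hclsU w' v hw' (by rw [hwc']; exact h6)
        rw [hφU w hwU w' hwU' (hwc.trans hwc'.symm)]
        exact hw'
      have h7 := H.nb6 w
      rw [this] at h7
      simp at h7
  by_cases hg : ∀ c c', c ≠ c' → (dom nb φ c ∩ dom nb φ c').card ≤ 5
  · exact ⟨φ, hprop, ha, hg⟩
  push Not at hg
  obtain ⟨c, c', hcc, h6⟩ := hg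
  obtain ⟨v0, h0, h0', hall⟩ := beta_struct ha (c := c) (c' := c') h6
  have key : ∀ c, c ≠ 6 → v0 ∉ dom nb φ c → (∀ v, v ≠ v0 → v ∈ dom nb φ c) →
      ∃ u ∈ U, φ u = c ∧ nb u = univ.erase v0 := by
    intro c hc6 h0 hall
    obtain ⟨v1, hv1⟩ := exists_free {v0} (by simp)
    have hv1' : v1 ≠ v0 := by simpa using hv1
    obtain ⟨w, hw, hwc⟩ := mem_dom.mp (hall v1 hv1')
    have hwU := hclsU w v1 hw (by rw [hwc]; exact hc6)
    refine ⟨w, hwU, hwc, ?_⟩
    ext v
    simp only [mem_erase, mem_univ, and_true]
    constructor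
    · rintro hv rfl
      exact h0 (mem_dom.mpr ⟨w, hv, hwc⟩)
    · intro hv
      obtain ⟨w', hw', hwc'⟩ := mem_dom.mp (hall v hv)
      have hwU' := hclsU w' v hw' (by rw [hwc']; exact hc6)
      rw [hφU w hwU w' hwU' (hwc.trans hwc'.symm)]
      exact hw'
  have key6 : ∀ c, c ≠ 6 → v0 ∉ dom nb φ c → v0 ∉ dom nb φ 6 → (∀ v, v ≠ v0 → v ∈ dom nb φ c) →
      (∀ v, v ≠ v0 → v ∈ dom nb φ 6) → ∃ φ', Good r nb φ' := by
    intro c hc6 h0 h06 hall hall6
    obtain ⟨u, huU, huc, hnu⟩ := key c hc6 h0 hall
    have hT2 : ∀ t, t ∉ U → t ∉ D → 2 ≤ (nb t).card := by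
      intro t ht htD
      by_contra hlt
      have htm : t ∈ univ \ (U ∪ D) := by simp [ht, htD]
      have h1 : (univ.erase v0 : Finset (Fin 7)).card ≤ (dom nb φ 6).card := by
        apply card_le_card
        intro v hv
        exact hall6 v (mem_erase.mp hv).1
      rw [card_erase_of_mem (mem_univ _)] at h1
      simp at h1
      have h2 := card_le_card hdom6
      have h3 : ((univ \ (U ∪ D)).biUnion nb).card ≤ ∑ t ∈ univ \ (U ∪ D), (nb t).card :=
        card_biUnion_le
      have h4 := add_sum_erase (univ \ (U ∪ D)) (fun t => (nb t).card) htm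
      have h5 : ∑ t' ∈ (univ \ (U ∪ D)).erase t, (nb t').card ≤
          ((univ \ (U ∪ D)).erase t).card • 2 := by
        apply sum_le_card_nsmul
        intro t' ht'
        have := hTmem t' (mem_of_mem_erase ht')
        exact hTnb t' this.1 this.2
      rw [card_erase_of_mem htm, hTc] at h5
      simp only [smul_eq_mul] at h5
      omega
    have hp' : Proper r (Function.update φ u 6) := by
      apply proper_update hprop
      intro h
      obtain ⟨w, hw, hw6⟩ := mem_image.mp h
      have hwU : w ∉ U := fun h' => hφ6 w (Or.inl h') hw6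
      have hwD : w ∉ D := fun h' => hφ6 w (Or.inr h') hw6
      rw [SimpleGraph.mem_neighborFinset] at hw
      exact hTeq w hwU hwD (hT2 w hwU hwD) u huU hw.symm
    refine ⟨_, good_merge hp' v0 6 ?_ ?_⟩
    · intro v hv w hw
      have hvu : v ∈ nb u := by rw [hnu]; exact mem_erase.mpr ⟨hv, mem_univ _⟩
      obtain ⟨t, ht, ht6⟩ := mem_dom.mp (hall6 v hv)
      have hut : u ≠ t := by
        rintro rfl
        exact hφ6 u (Or.inl huU) ht6
      rcases out_eq H hut hvu ht w hw with rfl | rfl
      · rw [Function.update_self]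
      · rw [Function.update_of_ne hut.symm, ht6]
    · intro h
      obtain ⟨w, hw, hw6⟩ := mem_dom.mp h
      by_cases hwu : w = u
      · rw [hwu, hnu] at hw
        exact (mem_erase.mp hw).1 rfl
      · rw [Function.update_of_ne hwu] at hw6
        exact h06 (mem_dom.mpr ⟨w, hw, hw6⟩)
  by_cases hc6 : c = 6
  · subst hc6
    exact key6 c' (fun h => hcc h.symm) h0' h0 (fun v hv => (hall v hv).2)
      (fun v hv => (hall v hv).1)
  · by_cases hc6' : c' = 6
    · subst hc6'
      exact key6 c hc6 h0 h0' (fun v hv => (hall v hv).1) (fun v hv => (hall v hv).2)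
    · obtain ⟨p, -, hpc, hnp⟩ := key c hc6 h0 (fun v hv => (hall v hv).1)
      obtain ⟨p', -, hpc', hnp'⟩ := key c' hc6' h0' (fun v hv => (hall v hv).2)
      exact case_two H hprop p p' (by rintro rfl; exact hcc (hpc.symm.trans hpc')) hnp hnp'

/-- **Main local result.** -/
theorem exists_good {r : SimpleGraph W} [DecidableRel r.Adj] {nb : W → Finset (Fin 7)}
    (H : Hyp r nb) (hW : Fintype.card W = 14) (hk8 : r.CliqueFree 8) : ∃ φ, Good r nb φ := by
  classical
  have hdeg : ∀ x, 5 ≤ (rᶜ).degree x := by
    intro x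
    rw [SimpleGraph.degree_compl, hW]
    have := H.deg x
    omega
  have hind : ∀ S : Finset W, (∀ x ∈ S, ∀ y ∈ S, ¬ (rᶜ).Adj x y) → S.card ≤ 7 := by
    intro S hS
    by_contra hlt
    obtain ⟨S', hS', hc⟩ := Finset.exists_subset_card_eq (show 8 ≤ S.card by omega)
    apply hk8 S'
    rw [isNClique_iff]
    refine ⟨?_, hc⟩
    rw [isClique_iff]
    intro a ha b hb hab
    have := hS a (hS' ha) b (hS' hb)
    rw [compl_adj] at this
    by_contra h
    exact this ⟨hab, h⟩
  rcases tutte14 (rᶜ) hW hdeg hind with ⟨M, hM⟩ | ⟨S, hS, hj⟩ | ⟨U, D, hUD, hU, hD, h⟩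
  · obtain ⟨φ, hp, hl⟩ := colouring_of_matching hW nb M hM
    exact good_of_light H hp hl
  · apply good_of_join H hW S hS
    intro x hx y hy
    by_contra h
    have hxy : x ≠ y := by rintro rfl; exact hy hx
    exact hy (hj x hx y (by rw [compl_adj]; exact ⟨hxy, h⟩))
  · apply good_of_six H hW hk8 U D hUD hU hD
    intro x hx y hyx hyU
    by_contra hn
    exact hyU (h x hx y (by rw [compl_adj]; exact ⟨hyx.symm, hn⟩))

end Pool.Agent.X258.MOG
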