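import Pool.Agent.X258.MOG.Global

/-!
Graphs on 21 vertices with maximum degree at most 8 and clique number 7 are 7-colourable.
-/

namespace Pool.Agent.X258.MOG

open SimpleGraph Finset

set_option linter.unusedSectionVars false

variable {V : Type*} [Fintype V] [DecidableEq V]

theorem colorable_21 (G : SimpleGraph V) [DecidableRel G.Adj] (hV : Fintype.card V = 21)
    (hΔ : ∀ v, G.degree v ≤ 8) (K : Finset V) (hK : G.IsNClique 7 K) (hk8 : G.CliqueFree 8) :
    G.Colorable 7 := by
  classical
  have hKc : K.card = 7 := hK.card_eq
  have hKa : ∀ x ∈ K, ∀ y ∈ K, x ≠ y → G.Adj x y := fun x hx y hy h => hK.isClique hx hy h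
  let e : K ≃ Fin 7 := K.equivFinOfCardEq hKc
  let k : Fin 7 → V := fun v => (e.symm v : V)
  have hkK : ∀ v, k v ∈ K := fun v => (e.symm v).2
  have hkinj : Function.Injective k := fun v v' h =>
    e.symm.injective (Subtype.ext h)
  let r : SimpleGraph {x : V // x ∉ K} := G.comap Subtype.val
  let nb : {x : V // x ∉ K} → Finset (Fin 7) := fun w => univ.filter (fun v => G.Adj (k v) w)
  have hW : Fintype.card {x : V // x ∉ K} = 14 := by
    rw [Fintype.card_subtype_compl]
    simp [hV, hKc]
  have hext : ∀ (A : Finset (Fin 7)) (x : V), x ∉ K → (∀ v ∈ A, G.Adj x (k v)) →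
      A.card ≤ 6 := by
    intro A x hx hA
    by_contra hlt
    obtain ⟨A', hA', hc⟩ := Finset.exists_subset_card_eq (show 7 ≤ A.card by omega)
    apply hk8 (insert x (A'.image k))
    rw [isNClique_iff]
    have hxn : x ∉ A'.image k := by
      intro h
      obtain ⟨v, -, rfl⟩ := mem_image.mp h
      exact hx (hkK v)
    refine ⟨?_, ?_⟩
    · rw [isClique_iff]
      intro a ha b hb hab
      simp only [coe_insert, coe_image, Set.mem_insert_iff, Set.mem_image, mem_coe] at ha hb
      rcases ha with rfl | ⟨v, hv, rfl⟩ <;> rcases hb with rfl | ⟨v', hv', rfl⟩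
      · exact absurd rfl hab
      · exact hA v' (hA' hv')
      · exact (hA v (hA' hv)).symm
      · exact hKa _ (hkK v) _ (hkK v') hab
    · rw [card_insert_of_notMem hxn, card_image_of_injective _ hkinj, hc]
  have H : Hyp r nb := by
    refine ⟨?_, ?_, ?_, ?_⟩
    · intro v
      have hsub : (K.erase (k v)) ∪
          (univ.filter (fun w => v ∈ nb w)).image Subtype.val ⊆ G.neighborFinset (k v) := by
        intro y hy
        rw [SimpleGraph.mem_neighborFinset]
        rcases mem_union.mp hy with h | h
        · rw [mem_erase] at h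
          exact hKa _ (hkK v) y h.2 h.1.symm
        · obtain ⟨w, hw, rfl⟩ := mem_image.mp h
          simpa [nb] using hw
      have hdis : Disjoint (K.erase (k v))
          ((univ.filter (fun w => v ∈ nb w)).image Subtype.val) := by
        rw [Finset.disjoint_left]
        intro y hy hy'
        obtain ⟨w, hw, rfl⟩ := mem_image.mp hy'
        exact w.2 (mem_erase.mp hy).2
      have h1 := card_le_card hsub
      rw [card_union_of_disjoint hdis, card_erase_of_mem (hkK v), hKc,
        card_image_of_injective _ Subtype.val_injective,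
        SimpleGraph.card_neighborFinset_eq_degree] at h1
      have := hΔ (k v)
      omega
    · intro w
      have hsub : (r.neighborFinset w).image Subtype.val ∪ (nb w).image k ⊆
          G.neighborFinset (w : V) := by
        intro y hy
        rw [SimpleGraph.mem_neighborFinset]
        rcases mem_union.mp hy with h | h
        · obtain ⟨x, hx, rfl⟩ := mem_image.mp h
          rw [SimpleGraph.mem_neighborFinset] at hx
          exact hx
        · obtain ⟨v, hv, rfl⟩ := mem_image.mp h
          have : G.Adj (k v) w := by simpa [nb] using hv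
          exact this.symm
      have hdis : Disjoint ((r.neighborFinset w).image Subtype.val) ((nb w).image k) := by
        rw [Finset.disjoint_left]
        intro y hy hy'
        obtain ⟨x, hx, rfl⟩ := mem_image.mp hy
        obtain ⟨v, hv, hvx⟩ := mem_image.mp hy'
        exact x.2 (hvx ▸ hkK v)
      have h1 := card_le_card hsub
      rw [card_union_of_disjoint hdis, card_image_of_injective _ Subtype.val_injective,
        card_image_of_injective _ hkinj,
        SimpleGraph.card_neighborFinset_eq_degree, SimpleGraph.card_neighborFinset_eq_degree] at h1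
      exact h1.trans (hΔ _)
    · intro w
      apply hext (nb w) w w.2
      intro v hv
      have : G.Adj (k v) w := by simpa [nb] using hv
      exact this.symm
    · intro w w' hww
      by_contra hlt
      push Not at hlt
      obtain ⟨A, hA, hc⟩ := Finset.exists_subset_card_eq (show 6 ≤ (nb w ∩ nb w').card by omega)
      have hA1 : ∀ v ∈ A, G.Adj (k v) w := by
        intro v hv
        have := (mem_inter.mp (hA hv)).1
        simpa [nb] using this
      have hA2 : ∀ v ∈ A, G.Adj (k v) w' := by
        intro v hv
        have := (mem_inter.mp (hA hv)).2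
        simpa [nb] using this
      have hww' : G.Adj (w : V) (w' : V) := hww
      have hwn : ∀ x : V, x ∉ K → x ∉ A.image k := by
        intro x hx h
        obtain ⟨v, -, rfl⟩ := mem_image.mp h
        exact hx (hkK v)
      apply hk8 (insert (w : V) (insert (w' : V) (A.image k)))
      rw [isNClique_iff]
      refine ⟨?_, ?_⟩
      · rw [isClique_iff]
        intro a ha b hb hab
        simp only [coe_insert, coe_image, Set.mem_insert_iff, Set.mem_image, mem_coe] at ha hb
        rcases ha with rfl | rfl | ⟨v, hv, rfl⟩ <;> rcases hb with rfl | rfl | ⟨v', hv', rfl⟩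
        · exact absurd rfl hab
        · exact hww'
        · exact (hA1 v' hv').symm
        · exact hww'.symm
        · exact absurd rfl hab
        · exact (hA2 v' hv').symm
        · exact hA1 v hv
        · exact hA2 v hv
        · exact hKa _ (hkK v) _ (hkK v') hab
      · rw [card_insert_of_notMem (by simp [hww'.ne, hwn w w.2, -mem_image]),
          card_insert_of_notMem (hwn w' w'.2), card_image_of_injective _ hkinj, hc]
  have hr8 : r.CliqueFree 8 := by
    intro S hS
    apply hk8 (S.map (Function.Embedding.subtype _))
    rw [isNClique_iff] at hS ⊢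
    refine ⟨?_, by rw [card_map]; exact hS.2⟩
    rw [isClique_iff] at hS ⊢
    intro a ha b hb hab
    simp only [coe_map, Set.mem_image, mem_coe, Function.Embedding.subtype_apply] at ha hb
    obtain ⟨a, ha, rfl⟩ := ha
    obtain ⟨b, hb, rfl⟩ := hb
    exact hS.1 ha hb (fun h => hab (by rw [h]))
  obtain ⟨φ, hφ⟩ := exists_good H hW hr8
  obtain ⟨ψ, hψ, hψ2⟩ := extend H hφ
  have hmixed : ∀ (x : V) (hx : x ∈ K) (y : V) (hy : y ∉ K), G.Adj x y →
      ψ (e ⟨x, hx⟩) ≠ φ ⟨y, hy⟩ := by
    intro x hx y hy hxy he
    apply hψ2 (e ⟨x, hx⟩) ⟨y, hy⟩ _ he.symm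
    simp only [nb, mem_filter, mem_univ, true_and, k, Equiv.symm_apply_apply]
    exact hxy
  refine ⟨Coloring.mk (fun x => if hx : x ∈ K then ψ (e ⟨x, hx⟩) else φ ⟨x, hx⟩) ?_⟩
  intro x y hxy
  by_cases hx : x ∈ K <;> by_cases hy : y ∈ K
  · simp only [hx, hy, dif_pos]
    intro h
    have := congrArg Subtype.val (e.injective (hψ h))
    exact hxy.ne this
  · simp only [hx, hy, dif_pos, dif_neg, not_false_eq_true]
    exact hmixed x hx y hy hxy
  · simp only [hx, hy, dif_pos, dif_neg, not_false_eq_true]
    exact (hmixed y hy x hx hxy.symm).symm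
  · simp only [hx, hy, dif_neg, not_false_eq_true]
    exact hφ.proper ⟨x, hx⟩ ⟨y, hy⟩ hxy

end Pool.Agent.X258.MOG
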