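import Mathlib

/-!
Completing a 7-colouring of a graph on 14 vertices over a disjoint 7-clique, each vertex of which
has at most two neighbours among the 14 vertices, all degrees being at most 8 and there being no
8-clique.
-/

namespace Pool.Agent.X258.MOG

open SimpleGraph Finset

set_option linter.unusedSectionVars false

variable {W : Type*} [Fintype W] [DecidableEq W]

/-- `nb w` is the set of clique vertices adjacent to `w`. -/
structure Hyp (r : SimpleGraph W) [DecidableRel r.Adj] (nb : W → Finset (Fin 7)) : Prop where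
  out2 : ∀ v, (univ.filter (fun w => v ∈ nb w)).card ≤ 2
  deg : ∀ w, r.degree w + (nb w).card ≤ 8
  nb6 : ∀ w, (nb w).card ≤ 6
  com : ∀ w w', r.Adj w w' → (nb w ∩ nb w').card ≤ 5

/-- clique vertices that see the colour `c` -/
def dom (nb : W → Finset (Fin 7)) (φ : W → Fin 7) (c : Fin 7) : Finset (Fin 7) :=
  univ.filter (fun v => ∃ w, v ∈ nb w ∧ φ w = c)

omit [DecidableEq W] in
theorem mem_dom {nb : W → Finset (Fin 7)} {φ : W → Fin 7} {c v : Fin 7} :
    v ∈ dom nb φ c ↔ ∃ w, v ∈ nb w ∧ φ w = c := by
  simp [dom]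

/-- proper colouring -/
def Proper (r : SimpleGraph W) (φ : W → Fin 7) : Prop := ∀ w w', r.Adj w w' → φ w ≠ φ w'

/-- a colouring that extends over the clique -/
structure Good (r : SimpleGraph W) (nb : W → Finset (Fin 7)) (φ : W → Fin 7) : Prop where
  proper : Proper r φ
  alpha : ∀ c, dom nb φ c ≠ univ
  beta : ∀ c c', c ≠ c' → (dom nb φ c ∩ dom nb φ c').card ≤ 5

theorem extend {r : SimpleGraph W} [DecidableRel r.Adj] {nb : W → Finset (Fin 7)}
    (H : Hyp r nb) {φ : W → Fin 7} (hg : Good r nb φ) :
    ∃ ψ : Fin 7 → Fin 7, Function.Injective ψ ∧ ∀ v w, v ∈ nb w → φ w ≠ ψ v := by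
  let t : Fin 7 → Finset (Fin 7) := fun v => univ.filter (fun c => v ∉ dom nb φ c)
  have hall : ∀ S : Finset (Fin 7), S.card ≤ (S.biUnion t).card := by
    intro S
    rcases S.eq_empty_or_nonempty with rfl | ⟨v, hv⟩
    · simp
    let C : Finset (Fin 7) := univ.filter (fun c => S ⊆ dom nb φ c)
    have hC : S.biUnion t = univ \ C := by
      ext c
      simp only [mem_biUnion, mem_filter, mem_univ, true_and, t, C, mem_sdiff, not_subset]
    have hcard : (S.biUnion t).card + C.card = 7 := by
      rw [hC, card_sdiff_of_subset (subset_univ _)]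
      have := card_le_univ C
      simp at this ⊢
      omega
    have hC2 : C.card ≤ 2 := by
      have hsub : C ⊆ (univ.filter (fun w => v ∈ nb w)).image φ := by
        intro c hc
        simp only [C, mem_filter, mem_univ, true_and] at hc
        obtain ⟨w, hw, hwc⟩ := mem_dom.mp (hc hv)
        exact mem_image.mpr ⟨w, by simpa using hw, hwc⟩
      exact (card_le_card hsub).trans (card_image_le.trans (H.out2 v))
    have hS7 : S.card ≤ 7 := by
      have := card_le_univ S
      simpa using this
    have hc0 : C.card = 0 ∨ C.card = 1 ∨ C.card = 2 := by omega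
    rcases hc0 with h | h | h
    · omega
    · obtain ⟨c, hc⟩ := card_eq_one.mp h
      have hSc : S ⊆ dom nb φ c := by
        have : c ∈ C := by rw [hc]; simp
        simpa [C] using this
      have hlt : (dom nb φ c).card < 7 := by
        have h9 := hg.alpha c
        rw [Ne, eq_univ_iff_forall] at h9
        push Not at h9
        obtain ⟨x, hx⟩ := h9
        have := card_lt_univ_of_notMem hx
        simpa using this
      have := card_le_card hSc
      omega
    · obtain ⟨c, c', hne, hc⟩ := card_eq_two.mp h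
      have h1 : S ⊆ dom nb φ c := by
        have : c ∈ C := by rw [hc]; simp
        simpa [C] using this
      have h2 : S ⊆ dom nb φ c' := by
        have : c' ∈ C := by rw [hc]; simp
        simpa [C] using this
      have := card_le_card (subset_inter h1 h2)
      have := hg.beta c c' hne
      omega
  obtain ⟨ψ, hinj, hψ⟩ := (Finset.all_card_le_biUnion_card_iff_exists_injective t).mp hall
  refine ⟨ψ, hinj, fun v w hvw he => ?_⟩
  have := hψ v
  simp only [t, mem_filter, mem_univ, true_and] at this
  exact this (mem_dom.mpr ⟨w, hvw, he⟩)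

/-- all clique vertices but `v0` see only the colour `W₀`, and `v0` does not see it -/
theorem good_merge {r : SimpleGraph W} {nb : W → Finset (Fin 7)} {φ : W → Fin 7}
    (hp : Proper r φ) (v0 c0 : Fin 7) (h : ∀ v, v ≠ v0 → ∀ w, v ∈ nb w → φ w = c0)
    (h0 : v0 ∉ dom nb φ c0) : Good r nb φ := by
  have key : ∀ c, c ≠ c0 → dom nb φ c ⊆ {v0} := by
    intro c hc v hv
    obtain ⟨w, hw, hwc⟩ := mem_dom.mp hv
    by_contra hne
    exact hc (by rw [← hwc]; exact h v (by simpa using hne) w hw)
  refine ⟨hp, ?_, ?_⟩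
  · intro c hc
    by_cases hcc : c = c0
    · subst hcc
      exact h0 (by rw [hc]; exact mem_univ _)
    · have := card_le_card (key c hcc)
      rw [hc] at this
      simp at this
  · intro c c' hne
    by_cases hcc : c = c0
    · have := card_le_card ((inter_subset_right (s₁ := dom nb φ c)).trans
        (key c' (fun h => hne (by rw [hcc, h]))))
      simp at this ⊢
      omega
    · have := card_le_card ((inter_subset_left (s₂ := dom nb φ c')).trans (key c hcc))
      simp at this ⊢
      omega

/-- number of light vertices in each class at most two -/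
def Light (nb : W → Finset (Fin 7)) (φ : W → Fin 7) : Prop :=
  ∀ c, (univ.filter (fun w => φ w = c ∧ (nb w).card ≤ 3)).card ≤ 2

theorem exists_free (S : Finset (Fin 7)) (h : S.card ≤ 6) : ∃ c, c ∉ S := by
  by_contra hcon
  push Not at hcon
  have : S = univ := eq_univ_iff_forall.mpr hcon
  rw [this] at h
  simp at h

theorem proper_update {r : SimpleGraph W} [DecidableRel r.Adj] {φ : W → Fin 7} (hp : Proper r φ)
    (p : W) (c : Fin 7) (hc : c ∉ (r.neighborFinset p).image φ) :
    Proper r (Function.update φ p c) := by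
  intro w w' hww
  by_cases h1 : w = p
  · subst h1
    rw [Function.update_self, Function.update_of_ne hww.ne']
    intro he
    exact hc (mem_image.mpr ⟨w', by simpa using hww, he.symm⟩)
  · by_cases h2 : w' = p
    · subst h2
      rw [Function.update_self, Function.update_of_ne hww.ne]
      intro he
      exact hc (mem_image.mpr ⟨w, by simpa using hww.symm, he⟩)
    · rw [Function.update_of_ne h1, Function.update_of_ne h2]
      exact hp w w' hww

theorem dom_card_le {nb : W → Finset (Fin 7)} {φ : W → Fin 7} {c : Fin 7} {k m : ℕ}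
    (S : Finset W) (hS : ∀ w, φ w = c → w ∈ S) (hk : S.card ≤ k)
    (hm : ∀ w ∈ S, (nb w).card ≤ m) : (dom nb φ c).card ≤ k * m := by
  have hsub : dom nb φ c ⊆ S.biUnion nb := by
    intro v hv
    obtain ⟨w, hw, hwc⟩ := mem_dom.mp hv
    exact mem_biUnion.mpr ⟨w, hS w hwc, hw⟩
  exact (card_le_card hsub).trans ((card_biUnion_le_card_mul _ _ _ hm).trans
    (Nat.mul_le_mul_right _ hk))

theorem alpha_removal {r : SimpleGraph W} [DecidableRel r.Adj] {nb : W → Finset (Fin 7)}
    (H : Hyp r nb) (n : ℕ) : ∀ φ : W → Fin 7, Proper r φ → Light nb φ →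
    (univ.filter (fun w => dom nb φ (φ w) = univ)).card = n →
    ∃ φ' : W → Fin 7, Proper r φ' ∧ Light nb φ' ∧ ∀ c, dom nb φ' c ≠ univ := by
  induction n using Nat.strong_induction_on with
  | _ n ih =>
  intro φ hp hl hn
  by_cases hall : ∀ c, dom nb φ c ≠ univ
  · exact ⟨φ, hp, hl, hall⟩
  push Not at hall
  obtain ⟨c, hc⟩ := hall
  -- a heavy vertex in the class
  have hheavy : ∃ p, φ p = c ∧ 4 ≤ (nb p).card := by
    by_contra hcon
    push Not at hcon
    have := dom_card_le (nb := nb) (univ.filter (fun w => φ w = c ∧ (nb w).card ≤ 3))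
      (fun w hw => by
        have := hcon w hw
        simp only [mem_filter, mem_univ, true_and]
        exact ⟨hw, by omega⟩) (hl c) (m := 3) (fun w hw => by
        simp only [mem_filter, mem_univ, true_and] at hw
        exact hw.2)
    rw [hc] at this
    simp at this
  obtain ⟨p, hpc, hp4⟩ := hheavy
  have hv0 : ∃ v0, v0 ∉ nb p := exists_free _ (H.nb6 p)
  obtain ⟨v0, hv0⟩ := hv0
  have hq0 : v0 ∈ dom nb φ c := by rw [hc]; exact mem_univ _
  obtain ⟨q, hq, hqc⟩ := mem_dom.mp hq0
  let F : Finset (Fin 7) := (r.neighborFinset p).image φ ∪ (univ.filter (fun w => v0 ∈ nb w)).image φ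
  have hF : F.card ≤ 6 := by
    have h1 : ((r.neighborFinset p).image φ).card ≤ r.degree p := by
      rw [← SimpleGraph.card_neighborFinset_eq_degree]; exact card_image_le
    have h2 : ((univ.filter (fun w => v0 ∈ nb w)).image φ).card ≤ 2 :=
      card_image_le.trans (H.out2 v0)
    have h3 := card_union_le ((r.neighborFinset p).image φ)
      ((univ.filter (fun w => v0 ∈ nb w)).image φ)
    have h4 := H.deg p
    change F.card ≤ 6
    simp only [F]
    omega
  obtain ⟨d, hd⟩ := exists_free F hF
  simp only [F, mem_union, not_or] at hd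
  obtain ⟨hd1, hd2⟩ := hd
  have hdc : d ≠ c := by
    intro he
    exact hd2 (mem_image.mpr ⟨q, by simpa using hq, by rw [hqc, he]⟩)
  have hpd : φ p ≠ d := by rw [hpc]; exact hdc.symm
  let φ' := Function.update φ p d
  have hself : φ' p = d := Function.update_self _ _ _
  have hoth : ∀ w, w ≠ p → φ' w = φ w := fun w hw => Function.update_of_ne hw _ _
  have hdomd : dom nb φ' d ≠ univ := by
    intro he
    have : v0 ∈ dom nb φ' d := by rw [he]; exact mem_univ _
    obtain ⟨w, hw, hwd⟩ := mem_dom.mp this
    by_cases hwp : w = p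
    · subst hwp; exact hv0 hw
    · rw [hoth w hwp] at hwd
      exact hd2 (mem_image.mpr ⟨w, by simpa using hw, hwd⟩)
  have hdome : ∀ e, e ≠ d → dom nb φ' e ⊆ dom nb φ e := by
    intro e he v hv
    obtain ⟨w, hw, hwe⟩ := mem_dom.mp hv
    have hwp : w ≠ p := by
      rintro rfl
      exact he (by rw [← hwe, hself])
    rw [hoth w hwp] at hwe
    exact mem_dom.mpr ⟨w, hw, hwe⟩
  have hl' : Light nb φ' := by
    intro e
    refine le_trans (card_le_card ?_) (hl e)
    intro w hw
    simp only [mem_filter, mem_univ, true_and] at hw ⊢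
    have hwp : w ≠ p := by
      rintro rfl
      omega
    rw [hoth w hwp] at hw
    exact hw
  have hlt : (univ.filter (fun w => dom nb φ' (φ' w) = univ)).card < n := by
    rw [← hn]
    apply card_lt_card
    rw [ssubset_iff_of_subset]
    · refine ⟨p, ?_, ?_⟩
      · simp [hpc, hc]
      · simp only [mem_filter, mem_univ, true_and, hself]
        exact hdomd
    · intro w hw
      simp only [mem_filter, mem_univ, true_and] at hw ⊢
      have hwd : φ' w ≠ d := by
        intro he
        rw [he] at hw
        exact hdomd hw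
      have hwp : w ≠ p := by
        rintro rfl
        exact hwd hself
      have := hdome (φ' w) hwd
      rw [hw] at this
      rw [hoth w hwp] at this
      exact univ_subset_iff.mp this
  exact ih _ hlt φ' (proper_update hp p d hd1) hl' rfl


/-- if no colour is seen by all clique vertices and two colours are both seen by at least six, then
both are seen by all vertices but one -/
theorem beta_struct {nb : W → Finset (Fin 7)} {φ : W → Fin 7} (ha : ∀ c, dom nb φ c ≠ univ)
    {c c' : Fin 7} (h : 6 ≤ (dom nb φ c ∩ dom nb φ c').card) :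
    ∃ v0, v0 ∉ dom nb φ c ∧ v0 ∉ dom nb φ c' ∧
      (∀ v, v ≠ v0 → v ∈ dom nb φ c ∧ v ∈ dom nb φ c') := by
  have h1 := ha c
  rw [Ne, eq_univ_iff_forall] at h1
  push Not at h1
  obtain ⟨v0, hv0⟩ := h1
  have hsub : dom nb φ c ∩ dom nb φ c' ⊆ univ.erase v0 := by
    intro v hv
    rw [mem_erase]
    refine ⟨?_, mem_univ _⟩
    rintro rfl
    exact hv0 (mem_inter.mp hv).1
  have heq : dom nb φ c ∩ dom nb φ c' = univ.erase v0 := by
    apply eq_of_subset_of_card_le hsub
    rw [card_erase_of_mem (mem_univ _)]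
    simpa using h
  have hall : ∀ v, v ≠ v0 → v ∈ dom nb φ c ∧ v ∈ dom nb φ c' := by
    intro v hv
    have : v ∈ univ.erase v0 := mem_erase.mpr ⟨hv, mem_univ _⟩
    rw [← heq] at this
    exact mem_inter.mp this
  refine ⟨v0, hv0, ?_, hall⟩
  intro h2
  apply ha c'
  rw [eq_univ_iff_forall]
  intro v
  by_cases hv : v = v0
  · rw [hv]; exact h2
  · exact (hall v hv).2

theorem out_eq {r : SimpleGraph W} [DecidableRel r.Adj] {nb : W → Finset (Fin 7)}
    (H : Hyp r nb) {v : Fin 7} {x y : W} (hxy : x ≠ y) (hx : v ∈ nb x) (hy : v ∈ nb y)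
    (w : W) (hw : v ∈ nb w) : w = x ∨ w = y := by
  by_contra hcon
  push Not at hcon
  have hsub : ({w, x, y} : Finset W) ⊆ univ.filter (fun w => v ∈ nb w) := by
    intro z hz
    simp only [mem_insert, mem_singleton] at hz
    rcases hz with rfl | rfl | rfl <;> simpa
  have := card_le_card hsub
  rw [card_eq_three.mpr ⟨w, x, y, hcon.1, hcon.2, hxy, rfl⟩] at this
  have := H.out2 v
  omega

theorem case_one {r : SimpleGraph W} [DecidableRel r.Adj] {nb : W → Finset (Fin 7)}
    (H : Hyp r nb) {φ : W → Fin 7} (hp : Proper r φ) {c c' v0 : Fin 7} (hcc : c ≠ c')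
    (h0 : v0 ∉ dom nb φ c) (h0' : v0 ∉ dom nb φ c')
    (hall : ∀ v, v ≠ v0 → v ∈ dom nb φ c ∧ v ∈ dom nb φ c')
    (p : W) (hpc : φ p = c) (h3 : 3 ≤ (nb p).card) (h5 : (nb p).card ≤ 5) :
    ∃ φ', Good r nb φ' := by
  have hF : (insert c ((r.neighborFinset p).image φ)).card ≤ 6 := by
    have h1 : ((r.neighborFinset p).image φ).card ≤ r.degree p := by
      rw [← SimpleGraph.card_neighborFinset_eq_degree]; exact card_image_le
    have h2 := card_insert_le c ((r.neighborFinset p).image φ)
    have h4 := H.deg p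
    omega
  obtain ⟨d, hd⟩ := exists_free _ hF
  rw [mem_insert, not_or] at hd
  obtain ⟨hdc, hd⟩ := hd
  let φ' := Function.update φ p d
  have hself : φ' p = d := Function.update_self _ _ _
  have hoth : ∀ w, w ≠ p → φ' w = φ w := fun w hw => Function.update_of_ne hw _ _
  have hv0p : v0 ∉ nb p := fun h => h0 (mem_dom.mpr ⟨p, h, hpc⟩)
  have ha : ∀ v, v ∈ nb p → ∀ e, v ∈ dom nb φ' e → e = d ∨ e = c' := by
    intro v hv e he
    have hvv : v ≠ v0 := by rintro rfl; exact hv0p hv
    obtain ⟨y, hy, hyc⟩ := mem_dom.mp (hall v hvv).2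
    have hpy : p ≠ y := by
      rintro rfl
      exact hcc (by rw [← hpc, hyc])
    obtain ⟨w, hw, hwe⟩ := mem_dom.mp he
    rcases out_eq H hpy hv hy w hw with rfl | rfl
    · left; rw [← hwe, hself]
    · right; rw [← hwe, hoth _ hpy.symm, hyc]
  have hb : ∀ v, v ≠ v0 → v ∉ nb p → ∀ e, v ∈ dom nb φ' e → e = c ∨ e = c' := by
    intro v hvv hv e he
    obtain ⟨x, hx, hxc⟩ := mem_dom.mp (hall v hvv).1
    obtain ⟨y, hy, hyc⟩ := mem_dom.mp (hall v hvv).2
    have hxy : x ≠ y := by
      rintro rfl
      exact hcc (by rw [← hxc, hyc])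
    have hxp : x ≠ p := by rintro rfl; exact hv hx
    have hyp : y ≠ p := by rintro rfl; exact hv hy
    obtain ⟨w, hw, hwe⟩ := mem_dom.mp he
    rcases out_eq H hxy hx hy w hw with rfl | rfl
    · left; rw [← hwe, hoth _ hxp, hxc]
    · right; rw [← hwe, hoth _ hyp, hyc]
  have hc : ∀ e, v0 ∈ dom nb φ' e → e ≠ c ∧ e ≠ c' := by
    intro e he
    obtain ⟨w, hw, hwe⟩ := mem_dom.mp he
    have hwp : w ≠ p := by rintro rfl; exact hv0p hw
    rw [hoth w hwp] at hwe
    constructor
    · rintro rfl; exact h0 (mem_dom.mpr ⟨w, hw, hwe⟩)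
    · rintro rfl; exact h0' (mem_dom.mpr ⟨w, hw, hwe⟩)
  refine ⟨φ', proper_update hp p d hd, ?_, ?_⟩
  · intro e he
    have hcard : (insert v0 (nb p)).card ≤ 6 := (card_insert_le _ _).trans (by omega)
    obtain ⟨v1, hv1⟩ := exists_free _ hcard
    rw [mem_insert, not_or] at hv1
    have h6 := hb v1 hv1.1 hv1.2 e (by rw [he]; exact mem_univ _)
    have h7 := hc e (by rw [he]; exact mem_univ _)
    rcases h6 with h6 | h6
    · exact h7.1 h6
    · exact h7.2 h6
  · intro e e' hee
    by_contra hcon
    push Not at hcon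
    let I := dom nb φ' e ∩ dom nb φ' e'
    have hI : 6 ≤ I.card := hcon
    have hex : ∀ X : Finset (Fin 7), 2 ≤ X.card → ∃ v, v ∈ X ∧ v ∈ I := by
      intro X hX
      by_contra hno
      push Not at hno
      have hdis : Disjoint X I := by
        rw [Finset.disjoint_left]; exact fun v hv => hno v hv
      have h8 := card_union_of_disjoint hdis
      have h9 := card_le_univ (X ∪ I)
      simp only [Fintype.card_fin] at h9
      omega
    obtain ⟨v, hv, hvI⟩ := hex (nb p) (by omega)
    have hvI' := mem_inter.mp hvI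
    have k1 := ha v hv e hvI'.1
    have k2 := ha v hv e' hvI'.2
    obtain ⟨v2, hv2, hv2I⟩ := hex (univ \ nb p) (by
      rw [card_sdiff_of_subset (subset_univ _)]
      simp
      omega)
    have hv2' : v2 ∉ nb p := (mem_sdiff.mp hv2).2
    have hv2I' := mem_inter.mp hv2I
    by_cases hvv : v2 = v0
    · rw [hvv] at hv2I'
      have k3 := hc e hv2I'.1
      have k4 := hc e' hv2I'.2
      rcases k1 with k1 | k1 <;> rcases k2 with k2 | k2
      · exact hee (k1.trans k2.symm)
      · exact k4.2 k2
      · exact k3.2 k1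
      · exact k3.2 k1
    · have k3 := hb v2 hvv hv2' e hv2I'.1
      have k4 := hb v2 hvv hv2' e' hv2I'.2
      rcases k1 with k1 | k1 <;> rcases k2 with k2 | k2
      · exact hee (k1.trans k2.symm)
      · rcases k3 with k3 | k3
        · exact hdc (k1.symm.trans k3)
        · exact hee (k3.trans k2.symm)
      · rcases k4 with k4 | k4
        · exact hdc (k2.symm.trans k4)
        · exact hee (k1.trans k4.symm)
      · exact hee (k1.trans k2.symm)

theorem case_two {r : SimpleGraph W} [DecidableRel r.Adj] {nb : W → Finset (Fin 7)}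
    (H : Hyp r nb) {φ : W → Fin 7} (hp : Proper r φ) {v0 : Fin 7}
    (p p' : W) (hne : p ≠ p') (hnp : nb p = univ.erase v0) (hnp' : nb p' = univ.erase v0) :
    ∃ φ', Good r nb φ' := by
  have hc6 : (univ.erase v0 : Finset (Fin 7)).card = 6 := by
    rw [card_erase_of_mem (mem_univ _)]; simp
  have hnadj : ¬ r.Adj p p' := by
    intro h
    have := H.com p p' h
    rw [hnp, hnp', inter_self, hc6] at this
    omega
  have hdp := H.deg p
  have hdp' := H.deg p'
  rw [hnp, hc6] at hdp
  rw [hnp', hc6] at hdp'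
  let F : Finset (Fin 7) := ((r.neighborFinset p).image φ ∪ (r.neighborFinset p').image φ) ∪
    (univ.filter (fun w => v0 ∈ nb w)).image φ
  have hF : F.card ≤ 6 := by
    have h1 : ((r.neighborFinset p).image φ).card ≤ r.degree p := by
      rw [← SimpleGraph.card_neighborFinset_eq_degree]; exact card_image_le
    have h1' : ((r.neighborFinset p').image φ).card ≤ r.degree p' := by
      rw [← SimpleGraph.card_neighborFinset_eq_degree]; exact card_image_le
    have h2 : ((univ.filter (fun w => v0 ∈ nb w)).image φ).card ≤ 2 :=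
      card_image_le.trans (H.out2 v0)
    have h3 := card_union_le ((r.neighborFinset p).image φ) ((r.neighborFinset p').image φ)
    have h4 := card_union_le ((r.neighborFinset p).image φ ∪ (r.neighborFinset p').image φ)
      ((univ.filter (fun w => v0 ∈ nb w)).image φ)
    change F.card ≤ 6
    simp only [F]
    omega
  obtain ⟨d, hd⟩ := exists_free F hF
  simp only [F, mem_union, not_or] at hd
  obtain ⟨⟨hd1, hd2⟩, hd3⟩ := hd
  have hp1 : Proper r (Function.update φ p d) := proper_update hp p d hd1
  have hp2 : Proper r (Function.update (Function.update φ p d) p' d) := by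
    apply proper_update hp1
    intro h
    obtain ⟨w, hw, hwd⟩ := mem_image.mp h
    have hwp : w ≠ p := by
      rintro rfl
      exact hnadj (by simpa using hw : r.Adj p' w).symm
    rw [Function.update_of_ne hwp] at hwd
    exact hd2 (mem_image.mpr ⟨w, hw, hwd⟩)
  refine ⟨_, good_merge hp2 v0 d ?_ ?_⟩
  · intro v hv w hw
    have hvp : v ∈ nb p := by rw [hnp]; exact mem_erase.mpr ⟨hv, mem_univ _⟩
    have hvp' : v ∈ nb p' := by rw [hnp']; exact mem_erase.mpr ⟨hv, mem_univ _⟩
    rcases out_eq H hne hvp hvp' w hw with rfl | rfl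
    · rw [Function.update_of_ne hne, Function.update_self]
    · rw [Function.update_self]
  · intro h
    obtain ⟨w, hw, hwd⟩ := mem_dom.mp h
    have hwp : w ≠ p := by
      rintro rfl
      rw [hnp] at hw
      exact (mem_erase.mp hw).1 rfl
    have hwp' : w ≠ p' := by
      rintro rfl
      rw [hnp'] at hw
      exact (mem_erase.mp hw).1 rfl
    rw [Function.update_of_ne hwp', Function.update_of_ne hwp] at hwd
    exact hd3 (mem_image.mpr ⟨w, by simpa using hw, hwd⟩)

theorem nb_eq_of_six {nb : W → Finset (Fin 7)} {φ : W → Fin 7} {v0 : Fin 7} {p : W}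
    (h0 : v0 ∉ dom nb φ (φ p)) (h6 : (nb p).card = 6) : nb p = univ.erase v0 := by
  apply eq_of_subset_of_card_le
  · intro v hv
    rw [mem_erase]
    refine ⟨?_, mem_univ _⟩
    rintro rfl
    exact h0 (mem_dom.mpr ⟨p, hv, rfl⟩)
  · rw [card_erase_of_mem (mem_univ _), h6]; simp

theorem good_of_light {r : SimpleGraph W} [DecidableRel r.Adj] {nb : W → Finset (Fin 7)}
    (H : Hyp r nb) {φ0 : W → Fin 7} (hp0 : Proper r φ0) (hl0 : Light nb φ0) :
    ∃ φ', Good r nb φ' := by
  obtain ⟨φ, hp, hl, ha⟩ := alpha_removal H _ φ0 hp0 hl0 rfl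
  by_cases hg : ∀ c c', c ≠ c' → (dom nb φ c ∩ dom nb φ c').card ≤ 5
  · exact ⟨φ, hp, ha, hg⟩
  push Not at hg
  obtain ⟨c, c', hcc, h6⟩ := hg
  obtain ⟨v0, h0, h0', hall⟩ := beta_struct ha (c := c) (c' := c') h6
  by_cases h1 : ∃ p, φ p = c ∧ 3 ≤ (nb p).card ∧ (nb p).card ≤ 5
  · obtain ⟨p, hpc, h3, h5⟩ := h1
    exact case_one H hp hcc h0 h0' hall p hpc h3 h5
  by_cases h2 : ∃ p, φ p = c' ∧ 3 ≤ (nb p).card ∧ (nb p).card ≤ 5
  · obtain ⟨p, hpc, h3, h5⟩ := h2
    exact case_one H hp hcc.symm h0' h0 (fun v hv => (hall v hv).symm) p hpc h3 h5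
  push Not at h1 h2
  have key : ∀ c, v0 ∉ dom nb φ c → (∀ v, v ≠ v0 → v ∈ dom nb φ c) →
      (∀ p, φ p = c → 3 ≤ (nb p).card → 5 < (nb p).card) →
      ∃ p, φ p = c ∧ nb p = univ.erase v0 := by
    intro c h0 hall h1
    have : ∃ p, φ p = c ∧ (nb p).card = 6 := by
      by_contra hcon
      push Not at hcon
      have hsm : ∀ w, φ w = c → (nb w).card ≤ 2 := by
        intro w hw
        by_contra h
        have h9 := h1 w hw (by omega)
        have h10 := H.nb6 w
        exact hcon w hw (by omega)
      have h11 := dom_card_le (nb := nb) (univ.filter (fun w => φ w = c ∧ (nb w).card ≤ 3))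
        (fun w hw => by
          have := hsm w hw
          simp only [mem_filter, mem_univ, true_and]
          exact ⟨hw, by omega⟩) (hl c) (m := 2) (fun w hw => by
          simp only [mem_filter, mem_univ, true_and] at hw
          exact hsm w hw.1)
      have h12 : (univ.erase v0 : Finset (Fin 7)).card ≤ (dom nb φ c).card := by
        apply card_le_card
        intro v hv
        exact hall v (mem_erase.mp hv).1
      rw [card_erase_of_mem (mem_univ _)] at h12
      simp at h12
      omega
    obtain ⟨p, hpc, hp6⟩ := this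
    exact ⟨p, hpc, nb_eq_of_six (φ := φ) (by rw [hpc]; exact h0) hp6⟩
  obtain ⟨p, hpc, hnp⟩ := key c h0 (fun v hv => (hall v hv).1) h1
  obtain ⟨p', hpc', hnp'⟩ := key c' h0' (fun v hv => (hall v hv).2) h2
  exact case_two H hp p p' (by rintro rfl; exact hcc (hpc.symm.trans hpc')) hnp hnp'

end Pool.Agent.X258.MOG
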